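import Pool.Agent.H90.CNY.Stmts

/-!
# Row YDV of the board `cny`
-/

set_option autoImplicit false

namespace Pool.CND

open Finset

theorem ydv_thm (hLC : S_YLC) (hOS : S_YOS) : S_YDV := by
  intro k L G _ _ _ _ _ P ρ W I ζ n g0 hinj hW hI hZ hT hn hg0 hζ
  have hWI : W ≤ I := by
    intro w hw
    have h1 : w ∈ ram P ρ 1 := by rw [← hW]; exact hw
    have h2 : w ∈ ram P ρ 0 := ⟨h1.1, fun u hu hu1 => (h1.2 u hu hu1).imp id
      (fun h => by push_cast at h ⊢; linarith)⟩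
    rw [← hI] at h2
    exact h2
  have hζ1 : ζ 1 = 1 := (hZ.ker 1 I.one_mem).2 W.one_mem
  have hpow : ∀ j : ℕ, ζ (g0 ^ j) = ζ g0 ^ j := by
    intro j
    induction j with
    | zero => rw [pow_zero, pow_zero, hζ1]
    | succ j ih => rw [pow_succ, pow_succ, hZ.mul _ (I.pow_mem hg0 j) _ hg0, ih]
  have hnrm : ∀ w ∈ W, g0 * w * g0⁻¹ ∈ W := by
    intro w hw
    have h1 : g0 * w ∈ I := I.mul_mem hg0 (hWI hw)
    have h2 : g0 * w * g0⁻¹ ∈ I := I.mul_mem h1 (I.inv_mem hg0)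
    rw [← hZ.ker _ h2, hZ.mul _ h1 _ (I.inv_mem hg0), hZ.mul _ hg0 _ (hWI hw),
      (hZ.ker w (hWI hw)).2 hw, mul_one, ← hZ.mul _ hg0 _ (I.inv_mem hg0), mul_inv_cancel, hζ1]
  refine hOS G W _ n g0 hn hnrm ?_ ?_ ?_
  · intro w hw hw1
    obtain ⟨i, a, hi, hib, ha, hg⟩ := hLC k L G P ρ W I ζ hinj hW hI hZ hT w hw hw1
    have := (hg g0 hg0).1
    rw [this]
    exact hib
  · intro w hw hw1
    obtain ⟨i, a, hi, hib, ha, hg⟩ := hLC k L G P ρ W I ζ hinj hW hI hZ hT w hw hw1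
    change 0 ≤ P.b (ρ w)
    rw [← hib]
    positivity
  · intro j w hw hw1 hcom
    obtain ⟨i, a, hi, hib, ha, hg⟩ := hLC k L G P ρ W I ζ hinj hW hI hZ hT w hw hw1
    have e : g0 ^ j * w * (g0 ^ j)⁻¹ = w := by rw [hcom, mul_inv_cancel_right]
    have h1 := (hg (g0 ^ j) (I.pow_mem hg0 j)).2
    rw [e] at h1
    have h2 := (hg 1 I.one_mem).2
    rw [one_mul, inv_one, mul_one, hζ1, one_pow, one_mul] at h2
    have h3 := P.ge_sub h2 h1
    have e3 : ρ w P.pi - P.pi - algebraMap k L a * P.pi ^ (i + 1) -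
        (ρ w P.pi - P.pi - algebraMap k L (ζ (g0 ^ j) ^ i * a) * P.pi ^ (i + 1)) =
        algebraMap k L (ζ (g0 ^ j) ^ i * a - a) * P.pi ^ (i + 1) := by
      rw [map_sub]
      ring
    rw [e3] at h3
    have hz : ζ (g0 ^ j) ^ i * a - a = 0 := by
      by_contra hne
      have hπ : P.pi ^ (i + 1) ≠ 0 := pow_ne_zero _ P.pi_ne
      have hc : algebraMap k L (ζ (g0 ^ j) ^ i * a - a) ≠ 0 := by
        rw [Ne, map_eq_zero]
        exact hne
      rw [P.ge_iff (mul_ne_zero hc hπ), P.ord_mul _ _ hc hπ, P.ord_const _ hne, P.ord_pow P.pi_ne,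
        P.ord_pi] at h3
      push_cast at h3
      linarith
    have h4 : ζ (g0 ^ j) ^ i = 1 := by
      have : ζ (g0 ^ j) ^ i * a = 1 * a := by rw [one_mul]; exact sub_eq_zero.1 hz
      exact mul_right_cancel₀ ha this
    rw [hpow, ← pow_mul, hζ] at h4
    change (n : ℤ) ∣ j * P.b (ρ w)
    rw [← hib]
    exact_mod_cast h4

end Pool.CND
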